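import Pool.Agent.TTT.Blk

/-!
Monotonicity of blocking on the boards `[n]^k`: if the second player can block all the lines of
`[n]^k` (as Breaker, in the Maker-Breaker game), then he can block all the lines of `[N]^k`, for
every `N ≥ n` such that `n` is even, or `N` is odd, or `N ≥ 2 n`.  In particular he then forces a
draw in the game of the problem on `[N]^k`.
-/

set_option autoImplicit false

namespace Pool.Agent.Results.MP_24ddde_co.BlockingMonotone

open Pool.Agent.TTT Finset

/-- The set `A` of cells of the board `[n]^k` contains all the cells of a line. -/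
def HasLine (k n : ℕ) (A : Finset (Fin k → Fin n)) : Prop :=
  ∃ f : Fin k → Fin n → Fin n,
    (∀ j, (∃ c : Fin n, f j = fun _ => c) ∨ f j = id ∨ f j = Fin.rev) ∧
    (∃ j, f j = id ∨ f j = Fin.rev) ∧
    ∀ t : Fin n, (fun j => f j t) ∈ A

/-- The second player can block all the lines of `[n]^k`, whatever he owns himself: there is a set
`T` of positions (cells of the first player, cells of the second player) which contains the empty
position, in which the first player owns no line, and which the second player can keep. -/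
def CanBlock (k n : ℕ) : Prop :=
  ∃ T : Set (Finset (Fin k → Fin n) × Finset (Fin k → Fin n)),
    ((∅ : Finset (Fin k → Fin n)), (∅ : Finset (Fin k → Fin n))) ∈ T ∧
    ∀ p ∈ T, ¬ HasLine k n p.1 ∧
      (p.1.card = p.2.card →
        ∀ c : Fin k → Fin n, c ∉ p.1 → c ∉ p.2 → (insert c p.1, p.2) ∈ T) ∧
      (p.1.card = p.2.card + 1 → (∃ c : Fin k → Fin n, c ∉ p.1 ∧ c ∉ p.2) →
        ∃ c : Fin k → Fin n, c ∉ p.1 ∧ c ∉ p.2 ∧ (p.1, insert c p.2) ∈ T)

/-- The second player can force a draw on `[n]^k`: as above, except that the game stops when he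
owns a line himself. -/
def CanDraw (k n : ℕ) : Prop :=
  ∃ T : Set (Finset (Fin k → Fin n) × Finset (Fin k → Fin n)),
    ((∅ : Finset (Fin k → Fin n)), (∅ : Finset (Fin k → Fin n))) ∈ T ∧
    ∀ p ∈ T, ¬ HasLine k n p.1 ∧
      (p.1.card = p.2.card → ¬ HasLine k n p.2 →
        ∀ c : Fin k → Fin n, c ∉ p.1 → c ∉ p.2 → (insert c p.1, p.2) ∈ T) ∧
      (p.1.card = p.2.card + 1 → (∃ c : Fin k → Fin n, c ∉ p.1 ∧ c ∉ p.2) →
        ∃ c : Fin k → Fin n, c ∉ p.1 ∧ c ∉ p.2 ∧ (p.1, insert c p.2) ∈ T)

theorem hasLine_iff {k n : ℕ} (A : Finset (Fin k → Fin n)) :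
    HasLine k n A ↔ ∃ e ∈ Lines k n, e ⊆ A :=
  won_iff (HasLine k n) (fun _ => Iff.rfl) A

theorem canBlock_iff (k n : ℕ) : CanBlock k n ↔ BW (Lines k n) := by
  have hiff : CanBlock k n ↔ CanBlk (Lines k n) := by
    unfold CanBlock CanBlk
    simp only [hasLine_iff]
  rw [hiff]
  exact ⟨bw_of_canBlk, canBlk_of_bw⟩

theorem result (k n N : ℕ) (hn : 1 ≤ n) (hnN : n ≤ N) (hp : Even n ∨ Odd N ∨ 2 * n ≤ N)
    (h : CanBlock k n) : CanBlock k N ∧ CanDraw k N := by
  have h1 : BW (Lines k n) := (canBlock_iff k n).1 h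
  have h2 : BW (Lines k N) := by
    rcases hp with hp | hp | hp
    · exact bw_mono k hn hnN (Or.inl hp) h1
    · exact bw_mono k hn hnN (Or.inr hp) h1
    · exact bw_double k hn hp (h1.mono (Dom.of_subset (incLines_subset k n)))
  refine ⟨(canBlock_iff k N).2 h2, ?_⟩
  exact draw_of_bw h2 (HasLine k N) hasLine_iff

end Pool.Agent.Results.MP_24ddde_co.BlockingMonotone
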