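import Pool.Agent.TTT.Dich
import Pool.Agent.TTT.C6
import Pool.Agent.TTT.Win43

/-!
Hypercube tic-tac-toe in dimensions 1, 2 and 3: the threshold exists, it is 2 for `k = 1`, 3 for
`k = 2`, and 5 or 6 for `k = 3`.
-/

set_option autoImplicit false

namespace Pool.Agent.Results.MP_24ddde_co.UpToThree

open Pool.Agent.TTT

theorem fpw_34 : FPW 3 4 :=
  fw_lines enc3 enc3_inj (fun x => enc3_lt x) (fun i hi => enc3_range i hi) B43.lines
    (eq3_sound B43.eok).1 (eq3_sound B43.eok).2 B43.win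

theorem thr (k : ℕ) (h1 : 1 ≤ k) (h3 : k ≤ 3) :
    ∃ N, ((k = 1 → N = 2) ∧ (k = 2 → N = 3) ∧ (k = 3 → N = 5 ∨ N = 6)) ∧ Thr k N := by
  obtain rfl | rfl | rfl : k = 1 ∨ k = 2 ∨ k = 3 := by omega
  · exact ⟨2, by omega, thr_one⟩
  · exact ⟨3, by omega, thr_two⟩
  · rcases thr_three fpw_34 C6.bw with h | h
    · exact ⟨5, by omega, h⟩
    · exact ⟨6, by omega, h⟩

/-- For `k ≤ 3` the threshold of the problem exists; it is 2, 3, and 5 or 6, for `k = 1, 2, 3`. -/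
theorem result : ∀ k : ℕ, 1 ≤ k → k ≤ 3 →
    ∃ N : ℕ, ((k = 1 → N = 2) ∧ (k = 2 → N = 3) ∧ (k = 3 → N = 5 ∨ N = 6)) ∧ ∀ n : ℕ, 1 ≤ n →
      ∀ W : Finset (Fin k → Fin n) → Prop,
        (∀ A : Finset (Fin k → Fin n), W A ↔
          ∃ f : Fin k → Fin n → Fin n,
            (∀ j, (∃ c : Fin n, f j = fun _ => c) ∨ f j = id ∨ f j = Fin.rev) ∧
            (∃ j, f j = id ∨ f j = Fin.rev) ∧
            ∀ t : Fin n, (fun j => f j t) ∈ A) →
        (n < N →
          ∃ S : Set (Finset (Fin k → Fin n) × Finset (Fin k → Fin n)),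
            ((∅ : Finset (Fin k → Fin n)), (∅ : Finset (Fin k → Fin n))) ∈ S ∧
            ∀ p ∈ S, W p.1 ∨
              (¬ W p.2 ∧
                (p.1.card = p.2.card ∨ p.1.card = p.2.card + 1) ∧
                (p.1.card = p.2.card →
                  ∃ c : Fin k → Fin n, c ∉ p.1 ∧ c ∉ p.2 ∧ (insert c p.1, p.2) ∈ S) ∧
                (p.1.card = p.2.card + 1 →
                  (∃ c : Fin k → Fin n, c ∉ p.1 ∧ c ∉ p.2) ∧
                  ∀ c : Fin k → Fin n, c ∉ p.1 → c ∉ p.2 → (p.1, insert c p.2) ∈ S))) ∧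
        (N ≤ n →
          ∃ T : Set (Finset (Fin k → Fin n) × Finset (Fin k → Fin n)),
            ((∅ : Finset (Fin k → Fin n)), (∅ : Finset (Fin k → Fin n))) ∈ T ∧
            ∀ p ∈ T, ¬ W p.1 ∧
              (p.1.card = p.2.card → ¬ W p.2 →
                ∀ c : Fin k → Fin n, c ∉ p.1 → c ∉ p.2 → (insert c p.1, p.2) ∈ T) ∧
              (p.1.card = p.2.card + 1 → (∃ c : Fin k → Fin n, c ∉ p.1 ∧ c ∉ p.2) →
                ∃ c : Fin k → Fin n, c ∉ p.1 ∧ c ∉ p.2 ∧ (p.1, insert c p.2) ∈ T)) := by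
  intro k h1 h3
  obtain ⟨N, hN, h⟩ := thr k h1 h3
  refine ⟨N, hN, fun n hn W hW => ?_⟩
  have hW' : W = WonL k n := by
    funext A
    exact propext (won_iff W hW A)
  rw [hW']
  exact ⟨h.1 n hn, h.2 n hn⟩

end Pool.Agent.Results.MP_24ddde_co.UpToThree
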